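import Mathlib

/-!
# No bound `C √(max(1, log 1/π(x))) / t` for hitting probabilities of reversible chains
-/

open Finset

namespace Pool.Agent.Results.MP_e25d14_pr.SurpriseSqrtLogFails

/-- `P_x(τ(y) = t)` for the chain with transition matrix `P`: the sum, over all trajectories
`w₀, …, w_t` with `w₀ = x`, `w_t = y` and `w_s ≠ y` for `s < t`, of the product of the
transition probabilities along the trajectory. -/
noncomputable def hitProb {S : Type} [Fintype S] [DecidableEq S] (P : S → S → ℝ) (x y : S)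
    (t : ℕ) : ℝ :=
  ∑ w : Fin (t + 1) → S,
    if w 0 = x ∧ w (Fin.last t) = y ∧ ∀ s : Fin t, w s.castSucc ≠ y then
      ∏ s : Fin t, P (w s.castSucc) (w s.succ) else 0

/-- `P` is the transition matrix of an irreducible chain, reversible with respect to the
probability `π`. -/
structure ReversibleChain {S : Type} [Fintype S] (P : S → S → ℝ) (π : S → ℝ) : Prop where
  nonneg : ∀ u v, 0 ≤ P u v
  row_sum : ∀ u, ∑ v, P u v = 1
  irred : ∀ u v, Relation.ReflTransGen (fun a b => 0 < P a b) u v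
  pi_pos : ∀ u, 0 < π u
  pi_sum : ∑ u, π u = 1
  reversible : ∀ u v, π u * P u v = π v * P v u

/-- conductances on the path `0, …, N`: the edge `{i, i+1}` has conductance `(N-1)^i`. -/
noncomputable def cw (N : ℕ) (i j : ℕ) : ℝ :=
  (if j = i + 1 then ((N : ℝ) - 1) ^ i else 0) + (if i = j + 1 then ((N : ℝ) - 1) ^ j else 0)

/-- total conductance at `i` -/
noncomputable def cW (N : ℕ) (i : Fin (N + 1)) : ℝ := ∑ j : Fin (N + 1), cw N i j

/-- transition matrix -/
noncomputable def cP (N : ℕ) (i j : Fin (N + 1)) : ℝ := cw N i j / cW N i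

/-- stationary distribution -/
noncomputable def cpi (N : ℕ) (i : Fin (N + 1)) : ℝ := cW N i / ∑ j, cW N j

lemma cw_symm (N i j : ℕ) : cw N i j = cw N j i := by
  unfold cw; rw [add_comm]

lemma cw_nonneg (N i j : ℕ) (hN : 2 ≤ N) : 0 ≤ cw N i j := by
  have : (0 : ℝ) ≤ (N : ℝ) - 1 := by
    have : (2 : ℝ) ≤ N := by exact_mod_cast hN
    linarith
  unfold cw
  split_ifs <;> positivity

lemma cW_eq (N : ℕ) (i : Fin (N + 1)) : cW N i
    = (if (i : ℕ) < N then ((N : ℝ) - 1) ^ (i : ℕ) else 0)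
      + (if 0 < (i : ℕ) then ((N : ℝ) - 1) ^ ((i : ℕ) - 1) else 0) := by
  unfold cW cw
  rw [Finset.sum_add_distrib]
  congr 1
  · rw [← Finset.sum_range (fun j => if j = (i : ℕ) + 1 then ((N : ℝ) - 1) ^ (i : ℕ) else 0)]
    rw [Finset.sum_ite_eq']
    simp only [Finset.mem_range]
    congr 1
    apply propext
    omega
  · rw [← Finset.sum_range (fun j => if (i : ℕ) = j + 1 then ((N : ℝ) - 1) ^ j else 0)]
    split_ifs with h
    · rw [Finset.sum_eq_single ((i : ℕ) - 1)]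
      · rw [if_pos (by omega)]
      · intro b _ hb
        rw [if_neg (by omega)]
      · intro hb
        exact absurd (Finset.mem_range.mpr (by omega)) hb
    · apply Finset.sum_eq_zero
      intro b _
      rw [if_neg (by omega)]

lemma cW_pos (N : ℕ) (hN : 2 ≤ N) (i : Fin (N + 1)) : 0 < cW N i := by
  have h1 : (0 : ℝ) < (N : ℝ) - 1 := by
    have : (2 : ℝ) ≤ N := by exact_mod_cast hN
    linarith
  rw [cW_eq]
  have h2 : (i : ℕ) < N ∨ 0 < (i : ℕ) := by omega
  rcases h2 with h | h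
  · rw [if_pos h]
    have : 0 < ((N : ℝ) - 1) ^ (i : ℕ) := by positivity
    split_ifs <;> positivity
  · rw [if_pos h]
    have : 0 < ((N : ℝ) - 1) ^ ((i : ℕ) - 1) := by positivity
    split_ifs <;> positivity

lemma cW_zero (N : ℕ) (hN : 2 ≤ N) : cW N 0 = 1 := by
  rw [cW_eq]
  simp only [Fin.val_zero, lt_irrefl, if_false, pow_zero, add_zero]
  rw [if_pos (by omega)]

lemma cW_le (N : ℕ) (hN : 2 ≤ N) (i : Fin (N + 1)) : cW N i ≤ (N : ℝ) ^ N := by
  have h0 : (2 : ℝ) ≤ N := by exact_mod_cast hN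
  have h1 : (1 : ℝ) ≤ (N : ℝ) - 1 := by linarith
  have h2 : ((N : ℝ) - 1) ^ N + ((N : ℝ) - 1) ^ (N - 1) ≤ (N : ℝ) ^ N := by
    obtain ⟨M, rfl⟩ : ∃ M, N = M + 1 := ⟨N - 1, by omega⟩
    simp only [Nat.add_sub_cancel]
    have h3 : (((M + 1 : ℕ) : ℝ) - 1) ^ M ≤ ((M + 1 : ℕ) : ℝ) ^ M :=
      pow_le_pow_left₀ (by linarith) (by linarith) M
    have h4 : (((M + 1 : ℕ) : ℝ) - 1) ^ (M + 1) + (((M + 1 : ℕ) : ℝ) - 1) ^ M
        = (((M + 1 : ℕ) : ℝ) - 1) ^ M * ((M + 1 : ℕ) : ℝ) := by ring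
    rw [h4, pow_succ]
    exact mul_le_mul_of_nonneg_right h3 (by positivity)
  refine le_trans ?_ h2
  rw [cW_eq]
  have hi : (i : ℕ) ≤ N := by omega
  refine add_le_add ?_ ?_
  · split_ifs
    · exact pow_le_pow_right₀ h1 hi
    · positivity
  · split_ifs
    · exact pow_le_pow_right₀ h1 (by omega)
    · positivity

lemma chain (N : ℕ) (hN : 2 ≤ N) : ReversibleChain (cP N) (cpi N) := by
  have hsum : 0 < ∑ j, cW N j :=
    Finset.sum_pos (fun j _ => cW_pos N hN j) ⟨0, Finset.mem_univ _⟩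
  have h0 : (2 : ℝ) ≤ N := by exact_mod_cast hN
  have h1 : (0 : ℝ) < (N : ℝ) - 1 := by linarith
  have hedge : ∀ a b : Fin (N + 1), ((b : ℕ) = a + 1 ∨ (a : ℕ) = b + 1) → 0 < cP N a b := by
    intro a b hab
    refine div_pos ?_ (cW_pos N hN a)
    unfold cw
    rcases hab with h | h
    · rw [if_pos h]
      have : 0 < ((N : ℝ) - 1) ^ (a : ℕ) := by positivity
      split_ifs <;> positivity
    · rw [if_pos h]
      have : 0 < ((N : ℝ) - 1) ^ (b : ℕ) := by positivity
      split_ifs <;> positivity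
  have hup : ∀ k : ℕ, ∀ (hk : k < N + 1), Relation.ReflTransGen (fun a b => 0 < cP N a b)
      (0 : Fin (N + 1)) ⟨k, hk⟩ := by
    intro k
    induction k with
    | zero => intro hk; exact Relation.ReflTransGen.refl
    | succ k ih =>
      intro hk
      refine Relation.ReflTransGen.tail (ih (by omega)) (hedge _ _ (Or.inl rfl))
  have hdown : ∀ k : ℕ, ∀ (hk : k < N + 1), Relation.ReflTransGen (fun a b => 0 < cP N a b)
      ⟨k, hk⟩ (0 : Fin (N + 1)) := by
    intro k
    induction k with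
    | zero => intro hk; exact Relation.ReflTransGen.refl
    | succ k ih =>
      intro hk
      exact Relation.ReflTransGen.head (b := ⟨k, by omega⟩) (hedge _ _ (Or.inr rfl))
        (ih (by omega))
  refine ⟨fun u v => ?_, fun u => ?_, fun u v => ?_, fun u => ?_, ?_, fun u v => ?_⟩
  · exact div_nonneg (cw_nonneg N _ _ hN) (cW_pos N hN u).le
  · unfold cP
    rw [← Finset.sum_div]
    exact div_self (cW_pos N hN u).ne'
  · exact (hdown u.1 u.2).trans (hup v.1 v.2)
  · exact div_pos (cW_pos N hN u) hsum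
  · unfold cpi
    rw [← Finset.sum_div]
    exact div_self hsum.ne'
  · unfold cpi cP
    have hu := (cW_pos N hN u).ne'
    have hv := (cW_pos N hN v).ne'
    rw [div_mul_div_comm, div_mul_div_comm, mul_comm (∑ j, cW N j), mul_comm (∑ j, cW N j),
      mul_div_mul_left _ _ hu, mul_div_mul_left _ _ hv, cw_symm]

lemma step_ge (N : ℕ) (hN : 2 ≤ N) (i : Fin N) : 1 - 1 / (N : ℝ) ≤ cP N i.castSucc i.succ := by
  have h0 : (2 : ℝ) ≤ N := by exact_mod_cast hN
  have h1 : (0 : ℝ) < (N : ℝ) - 1 := by linarith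
  have hw : cw N (i.castSucc : ℕ) (i.succ : ℕ) = ((N : ℝ) - 1) ^ (i : ℕ) := by
    have e1 : ((i.succ : Fin (N + 1)) : ℕ) = (i : ℕ) + 1 := rfl
    have e2 : ((i.castSucc : Fin (N + 1)) : ℕ) = (i : ℕ) := rfl
    unfold cw
    rw [e1, e2, if_pos rfl, if_neg (by omega), add_zero]
  unfold cP
  rw [hw, le_div_iff₀ (cW_pos N hN _), cW_eq]
  have hi : ((i.castSucc : Fin (N + 1)) : ℕ) = (i : ℕ) := rfl
  rw [hi, if_pos i.2]
  split_ifs with h
  · obtain ⟨k, hk⟩ : ∃ k, (i : ℕ) = k + 1 := ⟨(i : ℕ) - 1, by omega⟩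
    rw [hk]
    simp only [Nat.add_sub_cancel]
    have : (1 - 1 / (N : ℝ)) * (((N : ℝ) - 1) ^ (k + 1) + ((N : ℝ) - 1) ^ k)
        = ((N : ℝ) - 1) ^ (k + 1) := by
      field_simp
      ring
    rw [this]
  · have h2 : 0 < ((N : ℝ) - 1) ^ (i : ℕ) := by positivity
    have h3 : (0 : ℝ) < 1 / (N : ℝ) := by positivity
    nlinarith

lemma hit_ge (N : ℕ) (hN : 2 ≤ N) :
    (1 - 1 / (N : ℝ)) ^ N ≤ hitProb (cP N) 0 (Fin.last N) N := by
  have hch := chain N hN
  have h0 : (2 : ℝ) ≤ N := by exact_mod_cast hN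
  have hle : 1 / (N : ℝ) ≤ 1 := by rw [div_le_one (by linarith)]; linarith
  unfold hitProb
  have hterm : ∀ w : Fin (N + 1) → Fin (N + 1), 0 ≤
      (if w 0 = 0 ∧ w (Fin.last N) = Fin.last N ∧ ∀ s : Fin N, w s.castSucc ≠ Fin.last N then
      ∏ s : Fin N, cP N (w s.castSucc) (w s.succ) else 0) := by
    intro w
    split_ifs
    · exact Finset.prod_nonneg fun s _ => hch.nonneg _ _
    · exact le_rfl
  have hone := Finset.single_le_sum (fun w _ => hterm w)
    (Finset.mem_univ (fun i : Fin (N + 1) => i))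
  refine le_trans ?_ hone
  rw [if_pos ⟨rfl, rfl, fun s => (Fin.castSucc_lt_last s).ne⟩]
  have : (1 - 1 / (N : ℝ)) ^ N = ∏ _s : Fin N, (1 - 1 / (N : ℝ)) := by simp
  rw [this]
  exact Finset.prod_le_prod (fun s _ => by linarith) fun s _ => step_ge N hN s

lemma quarter (k : ℕ) (hk : 1 ≤ k) : (1 / 4 : ℝ) ≤ (1 - 1 / ((2 * k : ℕ) : ℝ)) ^ (2 * k) := by
  have hkR : (1 : ℝ) ≤ k := by exact_mod_cast hk
  have h1 : (1 / 2 : ℝ) ≤ (1 - 1 / ((2 * k : ℕ) : ℝ)) ^ k := by
    have := one_add_mul_le_pow (a := -(1 / ((2 * k : ℕ) : ℝ))) (by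
      have : 1 / ((2 * k : ℕ) : ℝ) ≤ 1 := by
        rw [div_le_one (by positivity)]; push_cast; linarith
      linarith) k
    have e : 1 + (k : ℝ) * -(1 / ((2 * k : ℕ) : ℝ)) = 1 / 2 := by
      push_cast; field_simp; ring
    rw [e] at this
    simpa [sub_eq_add_neg] using this
  rw [mul_comm 2 k, pow_mul]
  rw [mul_comm k 2]
  nlinarith

/-- Q1 fails: for every `C` there are a finite irreducible reversible chain, states `x, y` and
`t ≥ 1` with `P_x(τ(y) = t) > (C / t) √(max(1, log 1/π(x)))`. -/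
theorem result : ∀ C : ℝ, ∃ (n : ℕ) (P : Fin n → Fin n → ℝ) (π : Fin n → ℝ),
    ReversibleChain P π ∧ ∃ (x y : Fin n) (t : ℕ), 1 ≤ t ∧
      C / (t : ℝ) * Real.sqrt (max 1 (Real.log (1 / π x))) < hitProb P x y t := by
  intro C0
  set C : ℝ := max C0 1 with hC
  have hC1 : (1 : ℝ) ≤ C := le_max_right _ _
  obtain ⟨k, hk⟩ := exists_nat_gt (4096 * C ^ 4)
  have hC4 : (1 : ℝ) ≤ C ^ 4 := one_le_pow₀ hC1
  have hk1 : 4096 < k := by
    have : (4096 : ℝ) < k := by linarith
    exact_mod_cast this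
  set N : ℕ := 2 * k with hNdef
  have hN2 : 2 ≤ N := by omega
  have hNR : 4096 * C ^ 4 < (N : ℝ) := by
    rw [hNdef]; push_cast
    have : (0 : ℝ) < k := by linarith
    linarith
  have hN0 : (8192 : ℝ) < N := by
    rw [hNdef]; push_cast
    have : (4096 : ℝ) < k := by exact_mod_cast hk1
    linarith
  refine ⟨N + 1, cP N, cpi N, chain N hN2, 0, Fin.last N, N, by omega, ?_⟩
  refine lt_of_lt_of_le ?_ (hit_ge N hN2)
  refine lt_of_lt_of_le ?_ (quarter k (by omega))
  -- the logarithm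
  have hlogN : 1 ≤ Real.log N := by
    have : Real.exp 1 ≤ N := by
      have := Real.exp_one_lt_d9
      linarith
    rw [Real.le_log_iff_exp_le (by linarith)]
    exact this
  have hpi : 1 / cpi N 0 ≤ ((N : ℝ) + 1) * (N : ℝ) ^ N := by
    unfold cpi
    rw [cW_zero N hN2, one_div_div, div_one]
    calc ∑ j, cW N j ≤ ∑ _j : Fin (N + 1), (N : ℝ) ^ N :=
          Finset.sum_le_sum fun j _ => cW_le N hN2 j
      _ = ((N : ℝ) + 1) * (N : ℝ) ^ N := by
          rw [Finset.sum_const, Finset.card_univ, Fintype.card_fin, nsmul_eq_mul]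
          push_cast; ring
  have hpi0 : 0 < 1 / cpi N 0 := by
    have := (chain N hN2).pi_pos 0
    positivity
  have hlog : Real.log (1 / cpi N 0) ≤ ((N : ℝ) + 2) * Real.log N := by
    refine (Real.log_le_log hpi0 hpi).trans ?_
    rw [Real.log_mul (by positivity) (by positivity), Real.log_pow]
    have h1 : Real.log ((N : ℝ) + 1) ≤ Real.log ((N : ℝ) ^ 2) := by
      apply Real.log_le_log (by positivity)
      nlinarith
    rw [Real.log_pow] at h1
    push_cast at h1
    linarith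
  have hlog2 : Real.log N ≤ 2 * Real.sqrt N := by
    have h1 : Real.log N = 2 * Real.log (Real.sqrt N) := by
      rw [Real.log_sqrt (by linarith)]; ring
    rw [h1]
    have h2 := Real.log_le_sub_one_of_pos (Real.sqrt_pos.mpr (show (0 : ℝ) < N by linarith))
    linarith
  have hmax : max 1 (Real.log (1 / cpi N 0)) ≤ 4 * (N : ℝ) * Real.sqrt N := by
    have hs : 1 ≤ Real.sqrt N := by
      rw [Real.one_le_sqrt]; linarith
    refine max_le ?_ (hlog.trans ?_)
    · nlinarith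
    · have h2 : ((N : ℝ) + 2) * Real.log N ≤ ((N : ℝ) + 2) * (2 * Real.sqrt N) :=
        mul_le_mul_of_nonneg_left hlog2 (by linarith)
      refine h2.trans ?_
      nlinarith
  have hsq : Real.sqrt (max 1 (Real.log (1 / cpi N 0))) ≤ Real.sqrt (4 * (N : ℝ) * Real.sqrt N) :=
    Real.sqrt_le_sqrt hmax
  have hC0 : C0 / (N : ℝ) * Real.sqrt (max 1 (Real.log (1 / cpi N 0)))
      ≤ C / (N : ℝ) * Real.sqrt (4 * (N : ℝ) * Real.sqrt N) := by
    refine mul_le_mul ?_ hsq (Real.sqrt_nonneg _) (by positivity)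
    exact div_le_div_of_nonneg_right (le_max_left _ _) (by linarith)
  refine lt_of_le_of_lt hC0 ?_
  -- square both sides
  have hpos : 0 ≤ C / (N : ℝ) * Real.sqrt (4 * (N : ℝ) * Real.sqrt N) := by positivity
  refine lt_of_pow_lt_pow_left₀ 2 (by norm_num) ?_
  have hs2 : 64 * C ^ 2 < Real.sqrt N := by
    rw [Real.lt_sqrt (by positivity)]
    nlinarith
  have hsN : Real.sqrt N * Real.sqrt N = N := Real.mul_self_sqrt (by linarith)
  have hsNpos : 0 < Real.sqrt N := Real.sqrt_pos.mpr (by linarith)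
  rw [mul_pow, Real.sq_sqrt (by positivity), div_pow]
  have : C ^ 2 / (N : ℝ) ^ 2 * (4 * (N : ℝ) * Real.sqrt N) = 4 * C ^ 2 / Real.sqrt N := by
    rw [div_mul_eq_mul_div, div_eq_div_iff (by positivity) (by positivity)]
    have : C ^ 2 * (4 * (N : ℝ) * Real.sqrt N) * Real.sqrt N
        = 4 * C ^ 2 * (N : ℝ) * (Real.sqrt N * Real.sqrt N) := by ring
    rw [this, hsN]; ring
  rw [this, div_lt_iff₀ hsNpos]
  norm_num
  linarith

end Pool.Agent.Results.MP_e25d14_pr.SurpriseSqrtLogFails
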